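import Pool.Agent.N207.GQ.Stm

/-!
# Algebraically independent elements satisfy no relation with algebraic coefficients (helper607)
-/

set_option autoImplicit false

namespace Pool.Agent.N607.GQ

open Pool.Agent.N207.GQ

theorem ind : StmInd := by
  intro B Ω I _ _ _ ψ x hx p hp h0
  let _ : Algebra B Ω := ψ.toAlgebra
  have hψ : algebraMap B Ω = ψ := rfl
  have hinj : Function.Injective (algebraMap B Ω) := by
    rw [injective_iff_map_eq_zero]
    intro b hb
    have h1 := hx (MvPolynomial.C b) (by rw [MvPolynomial.eval₂_C]; exact hb)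
    exact (map_eq_zero_iff _ (MvPolynomial.C_injective I B)).1 h1
  have : FaithfulSMul B Ω := (faithfulSMul_iff_algebraMap_injective B Ω).2 hinj
  have hai : AlgebraicIndependent B x := by
    rw [algebraicIndependent_iff]
    intro q hq
    apply hx
    rw [MvPolynomial.aeval_def] at hq
    exact hq
  set S := Subalgebra.algebraicClosure B Ω with hS
  have haiS : AlgebraicIndependent S x := hai.subalgebraAlgebraicClosure
  have hcoef : ∀ m, p.coeff m ∈ S := by
    intro m
    obtain ⟨q, hq, hq0⟩ := hp m
    exact ⟨q, hq, by rw [Polynomial.aeval_def]; exact hq0⟩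
  have hmem : p ∈ Set.range (MvPolynomial.map (algebraMap S Ω) : MvPolynomial I S →+* _) := by
    rw [MvPolynomial.mem_range_map_iff_coeffs_subset]
    intro c hc
    obtain ⟨m, -, rfl⟩ := (MvPolynomial.mem_coeffs_iff).1 hc
    exact ⟨⟨_, hcoef m⟩, rfl⟩
  obtain ⟨p', rfl⟩ := hmem
  rw [MvPolynomial.eval_map] at h0
  have h1 : p' = 0 := by
    rw [algebraicIndependent_iff] at haiS
    apply haiS
    rw [MvPolynomial.aeval_def]
    exact h0
  change (MvPolynomial.map (algebraMap S Ω)) p' = 0
  rw [h1, map_zero]

end Pool.Agent.N607.GQ
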